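import Pool.Agent.W188.QS.Stm2
import Pool.Agent.H345R2.Chi

set_option autoImplicit false

/-!
# Project QS, part BASIC

Differentiability and reflection formulas.
-/

open Complex

namespace Pool.Agent.W22.QS

open Pool.Agent.W188.QS

theorem XX_eq : Pool.Agent.W188.QS.XX = H345.XX := rfl

theorem sin_pi_ne {s : ℂ} (hs : 1 ≤ s.im) : Complex.sin (Real.pi * s) ≠ 0 := by
  intro h
  rw [Complex.sin_eq_zero_iff] at h
  obtain ⟨k, hk⟩ := h
  have h1 := congrArg Complex.im hk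
  rw [Complex.im_ofReal_mul] at h1
  have h2 : ((k : ℂ) * (Real.pi : ℂ)).im = 0 := by
    have : (k : ℂ) * (Real.pi : ℂ) = (((k : ℝ) * Real.pi : ℝ) : ℂ) := by push_cast; ring
    rw [this, Complex.ofReal_im]
  rw [h2] at h1
  have := Real.pi_pos
  nlinarith

theorem ne_neg_nat {s : ℂ} (hs : 1 ≤ s.im) (n : ℕ) : s ≠ -n := by
  intro hn
  have := congrArg Complex.im hn
  simp at this
  linarith

theorem ne_one' {s : ℂ} (hs : 1 ≤ s.im) : s ≠ 1 := by
  intro hn
  have := congrArg Complex.im hn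
  simp at this
  linarith

theorem XX_diff {s : ℂ} (hs : 1 ≤ s.im) : DifferentiableAt ℂ Pool.Agent.W188.QS.XX s := by
  have h2 : (2 * (Real.pi : ℂ)) ≠ 0 := H345.Chi.two_pi_ne
  have hG : DifferentiableAt ℂ Gamma s := Complex.differentiableAt_Gamma _ (ne_neg_nat hs)
  have hc : DifferentiableAt ℂ (fun s : ℂ => (2 * (Real.pi : ℂ)) ^ (-s)) s := by
    refine DifferentiableAt.const_cpow differentiableAt_id.neg (Or.inl h2)
  have hcos : DifferentiableAt ℂ (fun s : ℂ => Complex.cos (Real.pi * s / 2)) s := by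
    fun_prop
  have : Pool.Agent.W188.QS.XX = fun s : ℂ =>
      2 * (2 * (Real.pi : ℂ)) ^ (-s) * Gamma s * Complex.cos (Real.pi * s / 2) := rfl
  rw [this]
  exact (((differentiableAt_const _).mul hc).mul hG).mul hcos

theorem XX_ne_zero {s : ℂ} (hs : 1 ≤ s.im) : Pool.Agent.W188.QS.XX s ≠ 0 := by
  have h2 : (2 * (Real.pi : ℂ)) ≠ 0 := H345.Chi.two_pi_ne
  have h3 : (2 * (Real.pi : ℂ)) ^ (-s) ≠ 0 := by
    rw [Ne, Complex.cpow_eq_zero_iff]
    exact fun h => h2 h.1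
  exact mul_ne_zero (mul_ne_zero (mul_ne_zero two_ne_zero h3)
    (Complex.Gamma_ne_zero (ne_neg_nat hs))) (H345.Chi.cos_ne hs)

theorem rf_eq (s : ℂ) : rf s = (starRingEnd ℂ) (1 - s) := by
  rw [rf, map_sub, map_one]

theorem XX_rf {s : ℂ} (hs : 1 ≤ s.im) :
    Pool.Agent.W188.QS.XX (rf s) = ((starRingEnd ℂ) (Pool.Agent.W188.QS.XX s))⁻¹ := by
  have h1 : Pool.Agent.W188.QS.XX s * Pool.Agent.W188.QS.XX (1 - s) = 1 :=
    H345.Chi.XX_mul s (sin_pi_ne hs)
  have h2 : Pool.Agent.W188.QS.XX ((starRingEnd ℂ) (1 - s)) =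
      (starRingEnd ℂ) (Pool.Agent.W188.QS.XX (1 - s)) := H345.Chi.XX_conj (1 - s)
  rw [rf_eq, h2, eq_inv_of_mul_eq_one_right h1, map_inv₀]

theorem zeta_rf {s : ℂ} (hs : 1 ≤ s.im) :
    riemannZeta (rf s) = (starRingEnd ℂ) (Pool.Agent.W188.QS.XX s * riemannZeta s) := by
  have h1 : riemannZeta (1 - s) = Pool.Agent.W188.QS.XX s * riemannZeta s :=
    H345.zeta_fe s (ne_neg_nat hs) (ne_one' hs)
  rw [rf_eq, riemannZeta_conj, h1]

theorem qs_basic : StBasic := by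
  intro s hs
  have hX := XX_ne_zero hs
  have hXc : (starRingEnd ℂ) (Pool.Agent.W188.QS.XX s) ≠ 0 := by
    rwa [Ne, map_eq_zero]
  refine ⟨XX_diff hs, hX, differentiableAt_riemannZeta (ne_one' hs), XX_rf hs, zeta_rf hs,
    ?_, ?_, ?_⟩
  · intro k
    rw [FF, FF, XX_rf hs, zeta_rf hs]
    simp only [map_mul, map_pow]
    rw [mul_pow, pow_mul, pow_mul, inv_pow]
    field_simp
    ring
  · intro T Δ
    have h1 : ((rf s - cp T) / (Δ : ℂ)) ^ 2 = (starRingEnd ℂ) (((s - cp T) / (Δ : ℂ)) ^ 2) := by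
      have h2 : rf s - cp T = -(starRingEnd ℂ) (s - cp T) := by
        apply Complex.ext
        · simp [rf, cp]; ring
        · simp [rf, cp]; ring
      rw [h2, map_pow, map_div₀, Complex.conj_ofReal, neg_div, neg_sq]
    rw [GG, GG, h1, Complex.exp_conj]
  · intro c N hc
    have hcc : (starRingEnd ℂ) c = c⁻¹ := by
      have h1 : c * (starRingEnd ℂ) c = 1 := by
        rw [Complex.mul_conj, Complex.normSq_eq_norm_sq, hc]; norm_num
      exact (eq_inv_of_mul_eq_one_right h1)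
    rw [ww, ww, XX_rf hs, map_mul, map_pow, map_inv₀, hcc, inv_inv, mul_inv, inv_inv, inv_pow,
      inv_inv]

end Pool.Agent.W22.QS
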