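import Pool.Agent.W188.QS.Stm

set_option autoImplicit false

/-!
# Project QS, part DYAD

A dyadic Tauberian lemma.
-/

open MeasureTheory Set Filter Topology

namespace Pool.Agent.W22.QS

/-- the induction over dyadic intervals -/
theorem dyad_bound (e : ℝ → ℝ) (ε M T₂ : ℝ) (hM : 0 ≤ M) (hT : 0 < T₂)
    (h0 : ∀ T ∈ Icc (T₂ / 2) T₂, |e T| ≤ M) (hε : 0 < ε)
    (hs : ∀ T, T₂ ≤ T → |e T| ≤ ε / 4 + 1 / 2 * |e (T / 2)|) :
    ∀ j : ℕ, ∀ T ∈ Icc (T₂ / 2) (T₂ * 2 ^ j), |e T| ≤ ε / 2 + M * (T₂ / T) := by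
  have hbase : ∀ T ∈ Icc (T₂ / 2) T₂, |e T| ≤ ε / 2 + M * (T₂ / T) := by
    intro T hTT
    have h1 := h0 T hTT
    have hTp : 0 < T := by linarith [hTT.1]
    have h2 : 1 ≤ T₂ / T := by rw [le_div_iff₀ hTp]; linarith [hTT.2]
    have h3 : M * 1 ≤ M * (T₂ / T) := mul_le_mul_of_nonneg_left h2 hM
    linarith
  intro j
  induction j with
  | zero =>
    intro T hTT
    rw [pow_zero, mul_one] at hTT
    exact hbase T hTT
  | succ j ih =>
    intro T hTT
    by_cases hc : T ≤ T₂
    · exact hbase T ⟨hTT.1, hc⟩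
    · push Not at hc
      have hTp : 0 < T := by linarith
      have h1 := ih (T / 2) ⟨by linarith, by
        have := hTT.2
        rw [pow_succ] at this
        linarith⟩
      have h2 := hs T hc.le
      have h3 : T₂ / (T / 2) = 2 * (T₂ / T) := by field_simp
      rw [h3] at h1
      linarith

theorem qs_dyad : Pool.Agent.W188.QS.StDyad := by
  intro a m hm V hV hV0 hlim
  set L : ℝ → ℝ := fun T => T * Real.log T ^ m with hL
  set ρ : ℝ → ℝ := fun T => 1 / 2 * (Real.log (T / 2) / Real.log T) ^ m with hρ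
  have hLpos : ∀ T, 1 < T → 0 < L T := fun T hT =>
    mul_pos (by linarith) (Real.rpow_pos_of_pos (Real.log_pos hT) m)
  have hρL : ∀ T, 4 ≤ T → L (T / 2) / L T = ρ T := by
    intro T hT
    have h1 : 0 < Real.log (T / 2) := Real.log_pos (by linarith)
    have h2 : 0 < Real.log T := Real.log_pos (by linarith)
    have h3 : 0 < Real.log T ^ m := Real.rpow_pos_of_pos h2 m
    simp only [hL, hρ]
    rw [Real.div_rpow h1.le h2.le]
    have : T ≠ 0 := by linarith
    field_simp
  have hρle : ∀ T, 4 ≤ T → |ρ T| ≤ 1 / 2 := by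
    intro T hT
    have h1 : 0 < Real.log (T / 2) := Real.log_pos (by linarith)
    have h2 : 0 < Real.log T := Real.log_pos (by linarith)
    have h3 : Real.log (T / 2) / Real.log T ≤ 1 := by
      rw [div_le_one h2]
      exact Real.log_le_log (by linarith) (by linarith)
    have h4 : 0 ≤ (Real.log (T / 2) / Real.log T) ^ m := Real.rpow_nonneg (by positivity) m
    have h5 : (Real.log (T / 2) / Real.log T) ^ m ≤ 1 := Real.rpow_le_one (by positivity) h3 hm
    simp only [hρ]
    rw [abs_of_nonneg (by positivity)]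
    linarith
  have hρlim : Tendsto ρ atTop (𝓝 (1 / 2)) := by
    have h1 : Tendsto (fun T : ℝ => Real.log (T / 2) / Real.log T) atTop (𝓝 1) := by
      have h2 : Tendsto (fun T : ℝ => 1 - Real.log 2 / Real.log T) atTop (𝓝 (1 - 0)) :=
        tendsto_const_nhds.sub (Real.tendsto_log_atTop.const_div_atTop _)
      rw [sub_zero] at h2
      refine h2.congr' ?_
      filter_upwards [eventually_ge_atTop (4 : ℝ)] with T hT
      have h3 : 0 < Real.log T := Real.log_pos (by linarith)
      rw [Real.log_div (by linarith) (by norm_num)]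
      field_simp
    have h2 : Tendsto (fun T : ℝ => (Real.log (T / 2) / Real.log T) ^ m) atTop (𝓝 (1 ^ m)) :=
      h1.rpow_const (Or.inl one_ne_zero)
    rw [Real.one_rpow] at h2
    have h3 := h2.const_mul (1 / 2 : ℝ)
    rw [mul_one] at h3
    exact h3
  have hh : Tendsto (fun T => |(V T - V (T / 2)) / L T - a / 2| + |a| * |ρ T - 1 / 2|) atTop
      (𝓝 0) := by
    have h1 : Tendsto (fun T => |(V T - V (T / 2)) / L T - a / 2|) atTop (𝓝 |a / 2 - a / 2|) :=
      (hlim.sub_const _).abs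
    have h2 : Tendsto (fun T => |a| * |ρ T - 1 / 2|) atTop (𝓝 (|a| * |1 / 2 - 1 / 2|)) :=
      ((hρlim.sub_const _).abs).const_mul _
    simpa using h1.add h2
  have hstep : ∀ T, 4 ≤ T → |V T / L T - a| ≤
      (|(V T - V (T / 2)) / L T - a / 2| + |a| * |ρ T - 1 / 2|) +
        1 / 2 * |V (T / 2) / L (T / 2) - a| := by
    intro T hT
    have h1 : L T ≠ 0 := (hLpos T (by linarith)).ne'
    have h2 : L (T / 2) ≠ 0 := (hLpos (T / 2) (by linarith)).ne'
    have h3 : V T / L T - a = ((V T - V (T / 2)) / L T - a / 2) + a * (ρ T - 1 / 2) +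
        ρ T * (V (T / 2) / L (T / 2) - a) := by
      have h4 : ρ T * (V (T / 2) / L (T / 2)) = V (T / 2) / L T := by
        rw [← hρL T hT]; field_simp
      rw [mul_sub (ρ T), h4, sub_div]
      ring
    rw [h3]
    have h5 : |ρ T * (V (T / 2) / L (T / 2) - a)| ≤ 1 / 2 * |V (T / 2) / L (T / 2) - a| := by
      rw [abs_mul]
      exact mul_le_mul_of_nonneg_right (hρle T hT) (abs_nonneg _)
    have h6 := abs_add_le (((V T - V (T / 2)) / L T - a / 2) + a * (ρ T - 1 / 2))
      (ρ T * (V (T / 2) / L (T / 2) - a))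
    have h7 := abs_add_le ((V T - V (T / 2)) / L T - a / 2) (a * (ρ T - 1 / 2))
    rw [abs_mul a] at h7
    linarith
  rw [Metric.tendsto_atTop]
  intro ε hε
  obtain ⟨T₁, hT₁⟩ := (Metric.tendsto_atTop.mp hh) (ε / 4) (by linarith)
  set T₂ := max T₁ 8 with hT₂
  have h8 : 8 ≤ T₂ := le_max_right _ _
  have hc : 0 < T₂ / 2 * Real.log (T₂ / 2) ^ m := hLpos (T₂ / 2) (by linarith)
  set M := V T₂ / (T₂ / 2 * Real.log (T₂ / 2) ^ m) + |a| with hM
  have hM0 : 0 ≤ M := add_nonneg (div_nonneg (hV0 _) hc.le) (abs_nonneg _)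
  have hb := dyad_bound (fun T => V T / L T - a) ε M T₂ hM0 (by linarith) (by
    intro T hT
    have hT1 : 1 < T := by linarith [hT.1]
    have h1 : T₂ / 2 * Real.log (T₂ / 2) ^ m ≤ L T := by
      refine mul_le_mul hT.1 ?_ (Real.rpow_nonneg (Real.log_nonneg (by linarith)) m) (by linarith)
      exact Real.rpow_le_rpow (Real.log_nonneg (by linarith))
        (Real.log_le_log (by linarith) hT.1) hm
    have h2 : V T / L T ≤ V T₂ / (T₂ / 2 * Real.log (T₂ / 2) ^ m) :=
      div_le_div₀ (hV0 _) (hV hT.2) hc h1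
    have h3 : 0 ≤ V T / L T := div_nonneg (hV0 _) (hLpos T hT1).le
    have h4 := abs_sub (V T / L T) a
    rw [abs_of_nonneg h3] at h4
    show |V T / L T - a| ≤ M
    linarith) hε (by
    intro T hT
    have h1 := hT₁ T (le_trans (le_max_left _ _) hT)
    rw [Real.dist_eq, sub_zero, abs_of_nonneg (by positivity)] at h1
    have h2 := hstep T (by linarith)
    show |V T / L T - a| ≤ ε / 4 + 1 / 2 * |V (T / 2) / L (T / 2) - a|
    linarith)
  refine ⟨max T₂ (2 * M * T₂ / ε + 1), fun T hT => ?_⟩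
  have hTT : T₂ ≤ T := le_trans (le_max_left _ _) hT
  have hTp : 0 < T := by linarith
  obtain ⟨j, hj⟩ := pow_unbounded_of_one_lt (T / T₂) (one_lt_two (α := ℝ))
  have h1 : T ≤ T₂ * 2 ^ j := by
    have := hj.le
    rw [div_le_iff₀ (by linarith)] at this
    linarith
  have h2 := hb j T ⟨by linarith, h1⟩
  have h3 : M * (T₂ / T) < ε / 2 := by
    have h4 : 2 * M * T₂ / ε < T := by
      have := le_trans (le_max_right T₂ (2 * M * T₂ / ε + 1)) hT
      linarith
    rw [div_lt_iff₀ hε] at h4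
    rw [← mul_div_assoc, div_lt_iff₀ hTp]
    linarith
  rw [Real.dist_eq]
  show |V T / L T - a| < ε
  have h5 : |V T / L T - a| ≤ ε / 2 + M * (T₂ / T) := h2
  linarith

end Pool.Agent.W22.QS
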